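import Pool.Agent.X188.CPCert

/-!
# MP_1a2443_an: complete Pick pairs are stable under multiplication of the second kernel

The notions of kernel, contractive multiplier and complete Pick pair are those of the starting file
`Pool.Agent.Results.MP_e3a8c8_an.ShimorinCertificates`.

Proof. A complete Pick pair `(k, l)` has a Shimorin certificate (starting file); the same family
`p[z]` is a certificate for `(k, l h)` because `(l h)^z - l^z h` is positive; and a certificate
implies the complete Pick property.
-/

open scoped InnerProductSpace ComplexOrder ComplexConjugate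
open Matrix

namespace Pool.Agent.Results.MP_1a2443_an.MultiplySecond

open Pool.Agent.Results.MP_e3a8c8_an.ShimorinCertificates

universe u

variable {X : Type u}

/-- The pointwise product of two kernels (a kernel by Schur's theorem). -/
def mulKernel (l h : Kernel X) : Kernel X :=
  ⟨Matrix.of fun x y => l.fn x y * h.fn x y, l.psd.hadamard h.psd⟩

lemma cert_mul {k l : Kernel X} (h : Kernel X) (hl : ∀ x, l.fn x x ≠ 0)
    (hc : HasShimorinCertificate k l) : HasShimorinCertificate k (mulKernel l h) := by
  obtain ⟨p, hp⟩ := hc
  refine ⟨p, fun z => ⟨?_, (hp z).2⟩⟩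
  -- `(l^z - p l) h`
  have h1 := (hp z).1.hadamard h.psd
  -- the dyad `l(x,z) l(z,y) / l(z,z)`
  have h2 := X188.ker_dyad fun x => l.fn x z
  have h3 : (0 : ℂ) ≤ (l.fn z z)⁻¹ := by
    rw [H770R3.Shim.psd_diag_eq l.psd z, ← Complex.ofReal_inv, Complex.zero_le_real]
    exact inv_nonneg.mpr (H770R3.Shim.psd_diag_re l.psd z)
  have h4 := (h2.smul h3).hadamard (X188.CP.red_psd h.psd z)
  have h5 := h1.add h4
  refine (congrArg Matrix.PosSemidef ?_).mp h5
  ext x y
  have hlz := hl z
  simp only [Matrix.add_apply, Matrix.hadamard_apply, Matrix.sub_apply, Matrix.smul_apply,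
    Matrix.of_apply, smul_eq_mul, reduced, mulKernel, H770R3.Shim.red]
  rw [H770R3.Shim.psd_herm l.psd y z]
  by_cases hz : h.fn z z = 0
  · rw [hz]
    simp only [div_zero, mul_zero, sub_zero]
    field_simp
    ring
  · field_simp
    ring

/-- **Theorem.** Let `(k, l)` be a complete Pick pair of kernels on `X` which do not vanish on the
diagonal, and let `h` be any kernel on `X`.  Then `(k, l h)` is a complete Pick pair. -/
theorem result (k l h : Kernel X) (hk : ∀ x, k.fn x x ≠ 0) (hl : ∀ x, l.fn x x ≠ 0)
    (hkl : IsCPPair k l) : IsCPPair k (mulKernel l h) :=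
  X188.CP.cp_of_cert hk (cert_mul h hl
    (certificate_of_cp k l (fun x hx => absurd hx (hl x)) hkl))

end Pool.Agent.Results.MP_1a2443_an.MultiplySecond
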